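import Mathlib

set_option autoImplicit false

namespace Pool.Agent.Results.MP_714461_an.NowhereGateaux

open Filter Topology
open scoped ENNReal

/-- `φ` is Gateaux differentiable at `x₀`: there is a bounded linear operator `T` with
`(φ (x₀ + t h) - φ x₀) / t → T h` in norm as `t → 0`, `t ≠ 0`, for every direction `h`. -/
def GateauxDifferentiableAt {X Y : Type*} [NormedAddCommGroup X] [NormedSpace ℝ X]
    [NormedAddCommGroup Y] [NormedSpace ℝ Y] (φ : X → Y) (x₀ : X) : Prop :=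
  ∃ T : X →L[ℝ] Y, ∀ h : X,
    Tendsto (fun t : ℝ => t⁻¹ • (φ (x₀ + t • h) - φ x₀)) (𝓝[≠] 0) (𝓝 (T h))

variable {Γ : Type} 

/-- The Hilbert space `ℓ²(Γ)`. -/
abbrev H (Γ : Type) := lp (fun _ : Γ => ℝ) 2

theorem memlp_of_le {f : Γ → ℝ} {C : ℝ} (x : H Γ) (h : ∀ γ, ‖f γ‖ ≤ C * ‖x γ‖) :
    Memℓp f 2 := by
  have hx : Memℓp (fun γ => x γ) 2 := lp.memℓp x
  have h2 : (0:ℝ) < (2:ℝ≥0∞).toReal := by norm_num
  rw [memℓp_gen_iff h2] at hx ⊢
  have h3 : (2:ℝ≥0∞).toReal = ((2:ℕ):ℝ) := by norm_num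
  simp only [h3, Real.rpow_natCast] at hx ⊢
  refine Summable.of_nonneg_of_le (fun γ => by positivity) (fun γ => ?_) (hx.mul_left (C^2))
  rw [← mul_pow]
  exact pow_le_pow_left₀ (norm_nonneg _) (h γ) 2

theorem norm_le_of_le {u v : H Γ} {C : ℝ} (hC : 0 ≤ C) (h : ∀ γ, ‖u γ‖ ≤ C * ‖v γ‖) :
    ‖u‖ ≤ C * ‖v‖ := by
  have h1 : ‖u‖ ≤ ‖C • v‖ := by
    apply lp.norm_mono (by norm_num)
    intro γ
    rw [lp.coeFn_smul, Pi.smul_apply, norm_smul, Real.norm_of_nonneg hC]
    exact h γ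
  rwa [norm_smul, Real.norm_of_nonneg hC] at h1

/-- `s t = t + |t| / 2` -/
noncomputable def s (t : ℝ) : ℝ := t + |t| / 2

/-- the inverse of `s` -/
noncomputable def r (t : ℝ) : ℝ := 4 / 3 * t - 2 / 3 * |t|

theorem s_zero : s 0 = 0 := by simp [s]
theorem r_zero : r 0 = 0 := by simp [r]

theorem r_s (t : ℝ) : r (s t) = t := by
  unfold r s
  rcases le_or_gt 0 t with h | h
  · rw [abs_of_nonneg h, abs_of_nonneg (by linarith)]; ring
  · rw [abs_of_neg h, abs_of_neg (by linarith)]; ring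

theorem s_r (t : ℝ) : s (r t) = t := by
  unfold r s
  rcases le_or_gt 0 t with h | h
  · rw [abs_of_nonneg h, abs_of_nonneg (by linarith)]; ring
  · rw [abs_of_neg h, abs_of_neg (by linarith)]; ring

theorem s_lip (t u : ℝ) : ‖s t - s u‖ ≤ 2 * ‖t - u‖ := by
  unfold s
  simp only [Real.norm_eq_abs]
  have h1 : abs (|t| - |u|) ≤ |t - u| := abs_abs_sub_abs_le t u
  have h2 : t + |t| / 2 - (u + |u| / 2) = (t - u) + (|t| - |u|) / 2 := by ring
  rw [h2]
  calc |(t - u) + (|t| - |u|) / 2| ≤ |t - u| + |(|t| - |u|) / 2| := abs_add_le _ _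
    _ ≤ 2 * |t - u| := by
      rw [abs_div, abs_two]
      linarith [abs_nonneg (t - u)]

theorem r_lip (t u : ℝ) : ‖r t - r u‖ ≤ 2 * ‖t - u‖ := by
  unfold r
  simp only [Real.norm_eq_abs]
  have h1 : abs (|t| - |u|) ≤ |t - u| := abs_abs_sub_abs_le t u
  have h2 : 4 / 3 * t - 2 / 3 * |t| - (4 / 3 * u - 2 / 3 * |u|)
      = 4 / 3 * (t - u) - 2 / 3 * (|t| - |u|) := by ring
  rw [h2]
  calc |4 / 3 * (t - u) - 2 / 3 * (|t| - |u|)| ≤ |4 / 3 * (t - u)| + |2 / 3 * (|t| - |u|)| :=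
        abs_sub _ _
    _ ≤ 2 * |t - u| := by
      rw [abs_mul, abs_mul, abs_of_pos (by norm_num : (0:ℝ) < 4/3),
        abs_of_pos (by norm_num : (0:ℝ) < 2/3)]
      linarith

theorem s_bound (t : ℝ) : ‖s t‖ ≤ 2 * ‖t‖ := by
  have := s_lip t 0
  rwa [s_zero, sub_zero, sub_zero] at this

theorem r_bound (t : ℝ) : ‖r t‖ ≤ 2 * ‖t‖ := by
  have := r_lip t 0
  rwa [r_zero, sub_zero, sub_zero] at this

/-- The coordinatewise map `(x_γ) ↦ (x_γ + |x_γ| / 2)` of `ℓ²(Γ)` onto itself. -/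
noncomputable def φ (Γ : Type) : H Γ ≃ H Γ where
  toFun x := ⟨fun γ => s (x γ), memlp_of_le x fun γ => s_bound _⟩
  invFun x := ⟨fun γ => r (x γ), memlp_of_le x fun γ => r_bound _⟩
  left_inv x := by
    ext γ
    exact r_s _
  right_inv x := by
    ext γ
    exact s_r _

theorem φ_apply (x : H Γ) (γ : Γ) : (φ Γ x) γ = s (x γ) := rfl
theorem φ_symm_apply (x : H Γ) (γ : Γ) : ((φ Γ).symm x) γ = r (x γ) := rfl

theorem φ_lip : LipschitzWith 2 (φ Γ) := by
  apply LipschitzWith.of_dist_le_mul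
  intro x y
  rw [dist_eq_norm, dist_eq_norm]
  apply norm_le_of_le (by norm_num)
  intro γ
  exact s_lip _ _

theorem φ_symm_lip : LipschitzWith 2 (φ Γ).symm := by
  apply LipschitzWith.of_dist_le_mul
  intro x y
  rw [dist_eq_norm, dist_eq_norm]
  apply norm_le_of_le (by norm_num)
  intro γ
  exact r_lip _ _

theorem countable_support (x : H Γ) : {γ | x γ ≠ 0}.Countable := by
  have hx : Memℓp (fun γ => x γ) 2 := lp.memℓp x
  have h2 : (0:ℝ) < (2:ℝ≥0∞).toReal := by norm_num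
  rw [memℓp_gen_iff h2] at hx
  refine (hx.countable_support).mono ?_
  intro γ hγ
  simp only [Function.mem_support]
  have : 0 < ‖x γ‖ := norm_pos_iff.mpr hγ
  positivity

theorem exists_zero [Uncountable Γ] (x : H Γ) : ∃ γ, x γ = 0 := by
  by_contra hc
  push Not at hc
  have : (Set.univ : Set Γ) = {γ | x γ ≠ 0} := by
    ext γ
    simp [hc γ]
  have h2 : (Set.univ : Set Γ).Countable := this ▸ countable_support x
  exact Set.not_countable_univ h2

theorem coord_tendsto {F : ℝ → H Γ} {l : Filter ℝ} {L : H Γ} (h : Tendsto F l (𝓝 L)) (γ : Γ) :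
    Tendsto (fun t => (F t) γ) l (𝓝 (L γ)) := by
  rw [tendsto_iff_norm_sub_tendsto_zero] at h ⊢
  refine squeeze_zero (fun t => norm_nonneg _) (fun t => ?_) h
  have := lp.norm_apply_le_norm (by norm_num : (2:ℝ≥0∞) ≠ 0) (F t - L) γ
  exact this

/-- There is not even a directional derivative in some direction. -/
theorem not_dir [Uncountable Γ] (x : H Γ) :
    ∃ h : H Γ, ¬ ∃ L : H Γ,
      Tendsto (fun t : ℝ => t⁻¹ • (φ Γ (x + t • h) - φ Γ x)) (𝓝[≠] 0) (𝓝 L) := by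
  classical
  obtain ⟨γ, hγ⟩ := exists_zero x
  refine ⟨lp.single 2 γ (1:ℝ), ?_⟩
  rintro ⟨L, hL⟩
  have hcoord := coord_tendsto hL γ
  have hval : ∀ t : ℝ, (t⁻¹ • (φ Γ (x + t • lp.single 2 γ (1:ℝ)) - φ Γ x) : H Γ) γ = t⁻¹ * s t := by
    intro t
    rw [lp.coeFn_smul, Pi.smul_apply, lp.coeFn_sub, Pi.sub_apply, φ_apply, φ_apply, lp.coeFn_add,
      Pi.add_apply, lp.coeFn_smul, Pi.smul_apply, lp.single_apply_self, hγ, s_zero]
    simp
  simp only [hval] at hcoord
  have hpos : Tendsto (fun t : ℝ => t⁻¹ * s t) (𝓝[>] 0) (𝓝 (3/2)) := by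
    refine Tendsto.congr' ?_ tendsto_const_nhds
    filter_upwards [self_mem_nhdsWithin] with t ht
    have ht : (0:ℝ) < t := ht
    unfold s
    rw [abs_of_pos ht]
    have ht' : t ≠ 0 := ne_of_gt ht
    field_simp
    ring
  have hneg : Tendsto (fun t : ℝ => t⁻¹ * s t) (𝓝[<] 0) (𝓝 (1/2)) := by
    refine Tendsto.congr' ?_ tendsto_const_nhds
    filter_upwards [self_mem_nhdsWithin] with t ht
    have ht : t < (0:ℝ) := ht
    unfold s
    rw [abs_of_neg ht]
    have ht' : t ≠ 0 := ne_of_lt ht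
    field_simp
    ring
  have h1 := tendsto_nhds_unique hpos (hcoord.mono_left
    (nhdsWithin_mono _ fun t (ht : (0:ℝ) < t) => ne_of_gt ht))
  have h2 := tendsto_nhds_unique hneg (hcoord.mono_left
    (nhdsWithin_mono _ fun t (ht : t < (0:ℝ)) => ne_of_lt ht))
  rw [← h1] at h2
  norm_num at h2

theorem not_separable [Uncountable Γ] : ¬ TopologicalSpace.SeparableSpace (H Γ) := by
  classical
  intro hs
  obtain ⟨D, hDc, hDd⟩ := TopologicalSpace.exists_countable_dense (H Γ)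
  have hex : ∀ γ : Γ, ∃ d ∈ D, dist (lp.single 2 γ (1:ℝ) : H Γ) d < 1/2 := by
    intro γ
    exact hDd.exists_dist_lt _ (by norm_num)
  choose d hdD hd using hex
  have hinj : Function.Injective (fun γ => (⟨d γ, hdD γ⟩ : D)) := by
    intro γ δ hγδ
    have he : d γ = d δ := congrArg Subtype.val hγδ
    by_contra hne
    have h1 : dist (lp.single 2 γ (1:ℝ) : H Γ) (lp.single 2 δ (1:ℝ)) < 1 := by
      calc dist (lp.single 2 γ (1:ℝ) : H Γ) (lp.single 2 δ (1:ℝ))
          ≤ dist (lp.single 2 γ (1:ℝ) : H Γ) (d γ) + dist (d γ) (lp.single 2 δ (1:ℝ)) :=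
            dist_triangle _ _ _
        _ < 1/2 + 1/2 := by
            have h2 := hd γ
            have h3 := hd δ
            rw [dist_comm, ← he] at h3
            linarith
        _ = 1 := by norm_num
    rw [dist_eq_norm] at h1
    have h2 := lp.norm_apply_le_norm (by norm_num : (2:ℝ≥0∞) ≠ 0)
      ((lp.single 2 γ (1:ℝ) : H Γ) - lp.single 2 δ (1:ℝ)) γ
    have h3 : ((lp.single 2 γ (1:ℝ) : H Γ) - lp.single 2 δ (1:ℝ) : H Γ) γ = 1 := by
      show (Pi.single γ (1:ℝ) : Γ → ℝ) γ - (Pi.single δ (1:ℝ) : Γ → ℝ) γ = 1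
      rw [Pi.single_eq_same, Pi.single_eq_of_ne hne, sub_zero]
    rw [h3, norm_one] at h2
    linarith
  have : Countable D := hDc
  exact not_countable (α := Γ) hinj.countable

/-- `X` is nonseparable and there is a bijection `φ` of `X` onto itself such that `φ` and `φ⁻¹`
are Lipschitz (with constant `2`) and `φ` is Gateaux differentiable at no point; in fact at every
point some two-sided directional derivative fails to exist. -/
def HasNowhereGateauxLipschitzHomeo (X : Type) [NormedAddCommGroup X] [NormedSpace ℝ X] : Prop :=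
  ¬ TopologicalSpace.SeparableSpace X ∧
    ∃ φ : X ≃ X, LipschitzWith 2 φ ∧ LipschitzWith 2 φ.symm ∧
      (∀ x₀, ¬ GateauxDifferentiableAt φ x₀) ∧
      (∀ x₀, ∃ h, ¬ ∃ L, Tendsto (fun t : ℝ => t⁻¹ • (φ (x₀ + t • h) - φ x₀)) (𝓝[≠] 0) (𝓝 L))

/-- **Main result.** For every uncountable `Γ`, the Hilbert space `ℓ²(Γ)` (complete, uniformly
convex, so superreflexive and reflexive) is nonseparable and has a Lipschitz homeomorphism onto
itself which is Gateaux differentiable at no point. -/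
theorem result (Γ : Type) [Uncountable Γ] :
    CompleteSpace (lp (fun _ : Γ => ℝ) 2) ∧ UniformConvexSpace (lp (fun _ : Γ => ℝ) 2) ∧
      HasNowhereGateauxLipschitzHomeo (lp (fun _ : Γ => ℝ) 2) := by
  refine ⟨inferInstance, inferInstance, not_separable, φ Γ, φ_lip, φ_symm_lip, ?_, not_dir⟩
  rintro x₀ ⟨T, hT⟩
  obtain ⟨h, hh⟩ := not_dir x₀
  exact hh ⟨T h, hT h⟩

end Pool.Agent.Results.MP_714461_an.NowhereGateaux
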